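import Pool.Agent.Helper97.Tns.Goals

/-!
`S_SMITH → S_ENT → S_KAL` (MP_97d78d_ag, TensorCriterion).
-/

open MvPolynomial
open Pool.Agent.Helper97.Tns

namespace Pool.Agent.Helper29.Tns

/-! ### The multilinear polynomial `PP c A I` -/

section PP

variable {R S : Type*} [CommRing R] [CommRing S] {n : ℕ} {ι : Type} [Fintype ι]

open Classical in
/-- Component `I` of the tensor with components `c`, composed with the matrix `A`. -/
noncomputable def PP (c : (ι → Fin n) → R) (A : Matrix (Fin n) (Fin n) R) (I : ι → Fin n) : R :=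
  ∑ J : ι → Fin n, c J * ∏ t, A (J t) (I t)

open Classical in
lemma PP_mul (c : (ι → Fin n) → R) (A B : Matrix (Fin n) (Fin n) R) (I : ι → Fin n) :
    PP c (A * B) I = ∑ K : ι → Fin n, (∏ t, B (K t) (I t)) * PP c A K := by
  unfold PP
  have h1 : ∀ J : ι → Fin n, ∏ t, (A * B) (J t) (I t)
      = ∑ K : ι → Fin n, (∏ t, A (J t) (K t)) * ∏ t, B (K t) (I t) := by
    intro J
    simp only [Matrix.mul_apply]
    rw [Finset.prod_univ_sum]
    simp [Fintype.piFinset_univ, Finset.prod_mul_distrib]
  simp only [h1, Finset.mul_sum]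
  rw [Finset.sum_comm]
  refine Finset.sum_congr rfl fun K _ => Finset.sum_congr rfl fun J _ => ?_
  ring

lemma PP_diagonal (c : (ι → Fin n) → R) (A : Matrix (Fin n) (Fin n) R) (d : Fin n → R)
    (I : ι → Fin n) :
    PP c (A * Matrix.diagonal d) I = (∏ t, d (I t)) * PP c A I := by
  classical
  unfold PP
  simp only [Matrix.mul_diagonal, Finset.prod_mul_distrib, Finset.mul_sum]
  refine Finset.sum_congr rfl fun J _ => ?_
  ring

lemma map_PP (f : R →+* S) (c : (ι → Fin n) → R) (A : Matrix (Fin n) (Fin n) R)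
    (I : ι → Fin n) :
    f (PP c A I) = PP (fun J => f (c J)) (A.map f) I := by
  classical
  unfold PP
  simp [map_sum, map_mul, map_prod]

end PP

lemma map_Ent {n : ℕ} {ι : Type} [Fintype ι] {S : Type*} [CommRing S]
    (T : MultilinearMap ℂ (fun _ : ι => (Fin n → ℂ)) ℂ) (I : ι → Fin n) (f : RR n →+* S) :
    f (Ent T I) = PP (fun J => f (C (T fun t => Pi.single (J t) 1)))
      ((Matrix.mvPolynomialX (Fin n) (Fin n) ℂ).map f) I := by
  classical
  unfold PP Ent
  simp [map_sum, map_mul, map_prod, Matrix.mvPolynomialX_apply]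

/-! ### Integrality -/

/-- If the image of `x` in a larger ring is integral over the image of a subring, then `x` is
integral over the subring. -/
lemma isIntegral_of_map {A K : Type*} [CommRing A] [CommRing K] (f : A →+* K)
    (hf : Function.Injective f) (S : Subring A) (x : A)
    (h : IsIntegral (S.map f) (f x)) : IsIntegral S x := by
  obtain ⟨p, hp, hpx⟩ := h
  let g : S →+* S.map f := (f.comp S.subtype).codRestrict (S.map f)
    (fun s => ⟨s, s.2, rfl⟩)
  have hg : Function.Surjective g := by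
    rintro ⟨_, s, hs, rfl⟩
    exact ⟨⟨s, hs⟩, rfl⟩
  have hl : p ∈ Polynomial.lifts g := by
    rw [Polynomial.mem_lifts]
    exact Polynomial.map_surjective g hg p
  obtain ⟨q, hq, -, hqm⟩ := Polynomial.lifts_and_natDegree_eq_and_monic hl hp
  refine ⟨q, hqm, hf ?_⟩
  rw [map_zero, Polynomial.hom_eval₂, ← hpx, ← hq, Polynomial.eval₂_map]
  rfl

/-! ### Nullstellensatz -/

/-- A ring homomorphism from a polynomial ring over `ℂ` to a nontrivial ring: its kernel has a
common zero. -/
lemma exists_zero_of_ker {σ : Type} [Finite σ] {k : Type*} [CommRing k] [Nontrivial k]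
    (f : MvPolynomial σ ℂ →+* k) : ∃ x : σ → ℂ, ∀ p, f p = 0 → eval x p = 0 := by
  have h1 : RingHom.ker f ≠ ⊤ := RingHom.ker_ne_top f
  obtain ⟨M, hM, hle⟩ := Ideal.exists_le_maximal _ h1
  obtain ⟨x, hx⟩ := (isMaximal_iff_eq_vanishingIdeal_singleton (K := ℂ)).1 hM
  refine ⟨x, fun p hp => ?_⟩
  have h2 : p ∈ M := hle ((RingHom.mem_ker).2 hp)
  rw [hx, mem_vanishingIdeal_singleton_iff] at h2
  simpa [aeval_eq_eval] using h2

/-! ### The valuation-theoretic part -/

lemma val_part {K : Type} [Field K] (V : ValuationSubring K) {n : ℕ} {ι : Type} [Fintype ι]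
    (c : (ι → Fin n) → K) (M : Matrix (Fin n) (Fin n) K) (U W : Matrix (Fin n) (Fin n) V)
    (d : Fin n → K) (hW : IsUnit W.det)
    (hM : M = U.map (algebraMap V K) * Matrix.diagonal d * W.map (algebraMap V K))
    (hV : ∀ I, PP c M I ∈ V) (I : ι → Fin n) (hI : 1 < ∏ t, V.valuation (d (I t))) :
    V.valuation (PP c (U.map (algebraMap V K)) I) < 1 := by
  classical
  have h1 : W.map (algebraMap V K) * (W⁻¹).map (algebraMap V K) = 1 := by
    rw [← Matrix.map_mul, Matrix.mul_nonsing_inv W hW]
    simp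
  have h2 : M * (W⁻¹).map (algebraMap V K) = U.map (algebraMap V K) * Matrix.diagonal d := by
    rw [hM, Matrix.mul_assoc, h1, Matrix.mul_one]
  have h3 : PP c (U.map (algebraMap V K) * Matrix.diagonal d) I ∈ V := by
    rw [← h2, PP_mul]
    refine sum_mem fun J _ => mul_mem (prod_mem fun t _ => ?_) (hV J)
    exact (W⁻¹ (J t) (I t)).2
  rw [PP_diagonal, ← V.valuation_le_one_iff, map_mul, map_prod] at h3
  by_contra hcon
  push Not at hcon
  exact absurd h3 (not_le.2 (lt_of_lt_of_le hI (le_mul_of_one_le_right' hcon)))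

/-! ### The main step -/

theorem kal (hS : S_SMITH) (hE : S_ENT) : S_KAL := by
  classical
  intro n 𝒥 ι _ T hint
  let K := FractionRing (RR n)
  let f : RR n →+* K := algebraMap (RR n) K
  have hf : Function.Injective f := IsFractionRing.injective (RR n) K
  let E : Set (RR n) := {F : RR n | ∃ j I, F = Ent (T j) I}
  let s₀ : Set (RR n) := Set.range (algebraMap ℂ (RR n)) ∪ E
  have h1 : ¬ IsIntegral (Subring.closure (f '' s₀)) (f (genD n)) := by
    intro h
    apply hint
    rw [← RingHom.map_closure] at h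
    have h2 := isIntegral_of_map f hf (Subring.closure s₀) _ h
    rw [← Algebra.adjoin_eq_ring_closure] at h2
    exact h2
  obtain ⟨V, hsV, hDV⟩ : ∃ V : ValuationSubring K, f '' s₀ ⊆ V.toSubring ∧ f (genD n) ∉ V := by
    by_contra hcon
    push Not at hcon
    apply h1
    have h2 : f (genD n) ∈
        (⨅ V : {V : ValuationSubring K // f '' s₀ ⊆ V.toSubring}, V.1.toSubring) := by
      rw [Subring.mem_iInf]
      rintro ⟨V, hV⟩
      exact hcon V hV
    rw [iInf_valuationSubring_superset] at h2
    exact h2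
  have hC : ∀ z : ℂ, f (C z) ∈ V := fun z => hsV ⟨C z, Or.inl ⟨z, rfl⟩, rfl⟩
  have hEnt : ∀ j I, f (Ent (T j) I) ∈ V := fun j I => hsV ⟨_, Or.inr ⟨j, I, rfl⟩, rfl⟩
  obtain ⟨U, W, d, hU, hW, hM⟩ := hS K V n ((Matrix.mvPolynomialX (Fin n) (Fin n) ℂ).map f)
  -- the determinant
  have hdet : f (genD n) = (U.det : K) * (∏ i, d i) * (W.det : K) := by
    have h2 := congrArg Matrix.det hM
    rw [Matrix.det_mul, Matrix.det_mul, Matrix.det_diagonal] at h2
    rw [genD, RingHom.map_det, RingHom.mapMatrix_apply, h2]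
    have h3 : ∀ A : Matrix (Fin n) (Fin n) V, (A.map (algebraMap V K)).det = (A.det : K) := by
      intro A
      have h4 := (RingHom.map_det (algebraMap V K) A).symm
      rw [RingHom.mapMatrix_apply] at h4
      exact h4
    rw [h3, h3]
  have hv : 1 < ∏ i, V.valuation (d i) := by
    have h2 : 1 < V.valuation (f (genD n)) := by
      rw [← not_le, V.valuation_le_one_iff]
      exact hDV
    rw [hdet, map_mul, map_mul, (V.valuation_eq_one_iff _).1 hU,
      (V.valuation_eq_one_iff _).1 hW, map_prod, one_mul, mul_one] at h2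
    exact h2
  have hd : ∀ i, V.valuation (d i) ≠ 0 := by
    intro i hi
    rw [Finset.prod_eq_zero (Finset.mem_univ i) hi] at hv
    exact absurd hv (not_lt.2 zero_le_one)
  -- the components
  let c : ∀ j, (ι j → Fin n) → K := fun j J => f (C (T j fun t => Pi.single (J t) 1))
  have hval : ∀ j (I : ι j → Fin n), 1 < ∏ t, V.valuation (d (I t)) →
      V.valuation (PP (c j) (U.map (algebraMap V K)) I) < 1 := by
    intro j I hI
    refine val_part V (c j) _ U W d hW hM ?_ I hI
    intro I'
    have h2 := hEnt j I'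
    rw [map_Ent] at h2
    exact h2
  -- specialisation
  let g : ℂ →+* V := (f.comp C).codRestrict V.toSubring hC
  obtain ⟨u, hu⟩ := hU
  let ev : MvPolynomial ((Fin n × Fin n) ⊕ Unit) ℂ →+* V :=
    eval₂Hom g (Sum.elim (fun ij => U ij.1 ij.2) fun _ => ((u⁻¹ : Vˣ) : V))
  let res : MvPolynomial ((Fin n × Fin n) ⊕ Unit) ℂ →+* IsLocalRing.ResidueField V :=
    (IsLocalRing.residue V).comp ev
  obtain ⟨x, hx⟩ := exists_zero_of_ker res
  let ren : RR n →ₐ[ℂ] MvPolynomial ((Fin n × Fin n) ⊕ Unit) ℂ := rename Sum.inl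
  have hevren : ∀ F : RR n, ev (ren F) = eval₂Hom g (fun ij => U ij.1 ij.2) F := by
    intro F
    simp only [ev, ren]
    rw [coe_eval₂Hom, eval₂_rename]
    rfl
  have hxren : ∀ F : RR n, eval x (ren F) = eval (fun ij => x (Sum.inl ij)) F := by
    intro F
    simp only [ren]
    rw [eval_rename]
    rfl
  let U0 : Matrix (Fin n) (Fin n) ℂ := fun i j => x (Sum.inl (i, j))
  have hU0 : U0.det ≠ 0 := by
    have h2 : res (X (Sum.inr ()) * ren (genD n) - 1) = 0 := by
      have h3 : ev (X (Sum.inr ()) * ren (genD n) - 1) = 0 := by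
        rw [map_sub, map_mul, hevren, map_one]
        have h4 : ev (X (Sum.inr ())) = ((u⁻¹ : Vˣ) : V) := by simp [ev]
        have h5 : eval₂Hom g (fun ij : Fin n × Fin n => U ij.1 ij.2) (genD n) = U.det := by
          rw [genD, RingHom.map_det, RingHom.mapMatrix_apply]
          congr 1
          ext i j
          simp
        rw [h4, h5, ← hu, Units.inv_mul, sub_self]
      change IsLocalRing.residue V (ev _) = 0
      rw [h3, map_zero]
    have h3 := hx _ h2
    have h4 : eval (fun ij : Fin n × Fin n => x (Sum.inl ij)) (genD n) = U0.det := by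
      rw [genD, RingHom.map_det, RingHom.mapMatrix_apply]
      congr 1
      ext i j
      simp [U0]
    rw [map_sub, map_mul, hxren, map_one, h4] at h3
    intro h5
    rw [h5, mul_zero, zero_sub, neg_eq_zero] at h3
    exact one_ne_zero h3
  have hzero : ∀ j (I : ι j → Fin n), 1 < ∏ t, V.valuation (d (I t)) →
      T j (fun t i => U0 i (I t)) = 0 := by
    intro j I hI
    have h2 : ((ev (ren (Ent (T j) I)) : V) : K) = PP (c j) (U.map (algebraMap V K)) I := by
      rw [hevren]
      change algebraMap V K _ = _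
      rw [map_Ent, map_PP]
      congr 1
      · funext J
        simp only [coe_eval₂Hom, eval₂_C]
        rfl
      · ext i k
        simp
    have h3 : res (ren (Ent (T j) I)) = 0 := by
      change IsLocalRing.residue V (ev _) = 0
      rw [IsLocalRing.residue_eq_zero_iff, V.valuation_lt_one_iff, h2]
      exact hval j I hI
    have h4 := hx _ h3
    rw [hxren] at h4
    rw [← h4]
    exact ((hE n (ι j) (T j) I).2.1 U0).symm
  refine ⟨Additive V.ValueGroupˣ, inferInstance, inferInstance, inferInstance,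
    fun i => Additive.ofMul (Units.mk0 _ (hd i))⁻¹, U0, hU0, ?_, ?_⟩
  · rw [← ofMul_prod]
    change (∏ i, (Units.mk0 _ (hd i))⁻¹ : V.ValueGroupˣ) < 1
    rw [Finset.prod_inv_distrib, inv_lt_one', ← Units.val_lt_val]
    simpa using hv
  · intro j I hne
    rw [← ofMul_prod]
    change (1 : V.ValueGroupˣ) ≤ (∏ t, (Units.mk0 _ (hd (I t)))⁻¹)
    by_contra hcon
    push Not at hcon
    rw [Finset.prod_inv_distrib, inv_lt_one', ← Units.val_lt_val] at hcon
    refine hne (hzero j I ?_)
    simpa using hcon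

end Pool.Agent.Helper29.Tns
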